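import Pool.Agent.Y868.EX.Phi1

/-!
# Job CLSE: the surface belongs to the class
-/

set_option autoImplicit false

open Set Filter Topology MeasureTheory
open scoped ContDiff ComplexConjugate Real

noncomputable section

namespace Pool.Agent.Y868.EX

open Pool.Agent.Y262.EG Pool.Agent.Y262.EX

/-- the collar is open -/
lemma stp_open (L δ : ℝ) : IsOpen (Stp L δ) := by
  apply IsOpen.inter
  · exact isOpen_lt continuous_const Complex.continuous_re
  · exact isOpen_lt Complex.continuous_re continuous_const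

/-- norm of the differential of a function of the real part -/
lemma fderiv_re (K : ℝ → ℝ) (F : ℂ → ℝ) (z : ℂ) (K' : ℝ) (hK : HasDerivAt K K' z.re)
    (hF : F =ᶠ[𝓝 z] fun w => K w.re) : ‖fderiv ℝ F z‖ = |K'| := by
  have h1 : HasFDerivAt (fun w : ℂ => K w.re) (K' • Complex.reCLM) z := by
    have h2 : HasFDerivAt (fun w : ℂ => w.re) Complex.reCLM z := Complex.reCLM.hasFDerivAt
    exact hK.comp_hasFDerivAt z h2
  rw [hF.fderiv_eq, h1.fderiv, norm_smul, Complex.reCLM_norm, mul_one, Real.norm_eq_abs]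

/-- the estimate of the derivative in one variable -/
lemma est (a g' g2 g3 B C : ℝ) (hB : 1 ≤ B) (ha : |a| ≤ B) (h1 : |g'| ≤ B) (h2 : 0 ≤ g2)
    (h2' : g2 ≤ B) (h3 : |g3| ≤ C * g2 ^ (39 / 40 : ℝ)) :
    Real.exp (-a) * |Real.exp (-2 * a) * (2 * g' * g2 - g3)| ≤
      (Real.exp (3 * B) * (2 * B * B ^ (1 / 40 : ℝ) + |C|) * (Real.exp (-2 * B) ^ (39 / 40 : ℝ))⁻¹) *
        |-(Real.exp (-2 * a) * g2)| ^ (39 / 40 : ℝ) := by
  obtain ⟨ha1, ha2⟩ := abs_le.1 ha
  set X : ℝ := g2 ^ (39 / 40 : ℝ) with hX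
  have hX0 : 0 ≤ X := Real.rpow_nonneg h2 _
  have hE : 0 < Real.exp (-2 * B) ^ (39 / 40 : ℝ) := Real.rpow_pos_of_pos (Real.exp_pos _) _
  -- lower bound of the curvature
  have hlow : Real.exp (-2 * B) ^ (39 / 40 : ℝ) * X ≤ |-(Real.exp (-2 * a) * g2)| ^ (39 / 40 : ℝ) := by
    rw [abs_neg, abs_of_nonneg (mul_nonneg (Real.exp_pos _).le h2), hX,
      ← Real.mul_rpow (Real.exp_pos _).le h2]
    apply Real.rpow_le_rpow (mul_nonneg (Real.exp_pos _).le h2)
    · apply mul_le_mul_of_nonneg_right _ h2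
      apply Real.exp_le_exp.2
      linarith
    · norm_num
  -- `g2` is bounded by its power
  have hg2 : g2 ≤ B ^ (1 / 40 : ℝ) * X := by
    have h4 : g2 = g2 ^ (1 / 40 : ℝ) * g2 ^ (39 / 40 : ℝ) := by
      rw [← Real.rpow_add_of_nonneg h2 (by norm_num) (by norm_num)]
      norm_num
    calc g2 = g2 ^ (1 / 40 : ℝ) * X := h4
      _ ≤ B ^ (1 / 40 : ℝ) * X := by
          apply mul_le_mul_of_nonneg_right _ hX0
          exact Real.rpow_le_rpow h2 h2' (by norm_num)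
  have hC : |g3| ≤ |C| * X := h3.trans (mul_le_mul_of_nonneg_right (le_abs_self C) hX0)
  have h5 : |2 * g' * g2 - g3| ≤ (2 * B * B ^ (1 / 40 : ℝ) + |C|) * X := by
    calc |2 * g' * g2 - g3| ≤ |2 * g' * g2| + |g3| := abs_sub _ _
      _ = 2 * |g'| * g2 + |g3| := by
          rw [abs_mul, abs_mul, abs_of_nonneg h2, abs_of_pos (by norm_num : (0 : ℝ) < 2)]
      _ ≤ 2 * B * (B ^ (1 / 40 : ℝ) * X) + |C| * X := by
          have h6 : 2 * |g'| * g2 ≤ 2 * B * (B ^ (1 / 40 : ℝ) * X) := by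
            apply mul_le_mul _ hg2 h2 (by linarith)
            linarith
          linarith
      _ = (2 * B * B ^ (1 / 40 : ℝ) + |C|) * X := by ring
  have hc0 : 0 ≤ 2 * B * B ^ (1 / 40 : ℝ) + |C| := by
    have : 0 ≤ B ^ (1 / 40 : ℝ) := Real.rpow_nonneg (by linarith) _
    have := abs_nonneg C
    positivity
  have h7 : Real.exp (-a) * |Real.exp (-2 * a) * (2 * g' * g2 - g3)| ≤
      Real.exp (3 * B) * ((2 * B * B ^ (1 / 40 : ℝ) + |C|) * X) := by
    rw [abs_mul, abs_of_pos (Real.exp_pos _), ← mul_assoc, ← Real.exp_add]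
    apply mul_le_mul _ h5 (abs_nonneg _) (Real.exp_pos _).le
    apply Real.exp_le_exp.2
    linarith
  refine h7.trans ?_
  have h8 : Real.exp (3 * B) * ((2 * B * B ^ (1 / 40 : ℝ) + |C|) * X) =
      (Real.exp (3 * B) * (2 * B * B ^ (1 / 40 : ℝ) + |C|) *
        (Real.exp (-2 * B) ^ (39 / 40 : ℝ))⁻¹) * (Real.exp (-2 * B) ^ (39 / 40 : ℝ) * X) := by
    field_simp
  rw [h8]
  apply mul_le_mul_of_nonneg_left hlow
  positivity

/-- bound of the derivative of the curvature in the collar -/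
lemma collar_der (hL : 0 < L0) (g : ℝ → ℝ) (c1 C : ℝ) (hg : Prof g c1 C)
    (h31 : ∀ z ∈ Stp L0 (3 / 2 * L0), curv (phi g c1) z =
      -(Real.exp (-2 * g z.re) * deriv (deriv g) z.re))
    (hrot : ∀ z ∈ Stp L0 (3 / 2 * L0), phi g c1 z = g z.re) :
    ∃ C' : ℝ, 0 ≤ C' ∧ ∀ z ∈ Stp L0 (3 / 2 * L0),
      Real.exp (-phi g c1 z) * ‖fderiv ℝ (curv (phi g c1)) z‖ ≤
        C' * |curv (phi g c1) z| ^ (39 / 40 : ℝ) := by
  have hJ : IsOpen (Ioo (-(7 / 2 * L0)) (9 / 2 * L0)) := isOpen_Ioo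
  have d1 := (contDiffOn_infty_iff_deriv_of_isOpen hJ).1 hg.smooth
  have d2 := (contDiffOn_infty_iff_deriv_of_isOpen hJ).1 d1.2
  have d3 := (contDiffOn_infty_iff_deriv_of_isOpen hJ).1 d2.2
  have hI : Icc (-(3 / 2 * L0)) (5 / 2 * L0) ⊆ Ioo (-(7 / 2 * L0)) (9 / 2 * L0) := by
    rintro x ⟨hx1, hx2⟩
    refine ⟨?_, ?_⟩
    · linarith
    · linarith
  have hcpt : IsCompact (Icc (-(3 / 2 * L0)) (5 / 2 * L0)) := isCompact_Icc
  obtain ⟨B0, hB0⟩ := hcpt.exists_bound_of_continuousOn (hg.smooth.continuousOn.mono hI)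
  obtain ⟨B1, hB1⟩ := hcpt.exists_bound_of_continuousOn (d1.2.continuousOn.mono hI)
  obtain ⟨B2, hB2⟩ := hcpt.exists_bound_of_continuousOn (d2.2.continuousOn.mono hI)
  set B : ℝ := max 1 (max B0 (max B1 B2)) with hB
  have hb1 : 1 ≤ B := le_max_left _ _
  have hb0 : B0 ≤ B := (le_max_left _ _).trans (le_max_right _ _)
  have hb1' : B1 ≤ B := (le_max_left _ _).trans ((le_max_right _ _).trans (le_max_right _ _))
  have hb2 : B2 ≤ B := (le_max_right _ _).trans ((le_max_right _ _).trans (le_max_right _ _))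
  refine ⟨Real.exp (3 * B) * (2 * B * B ^ (1 / 40 : ℝ) + |C|) *
    (Real.exp (-2 * B) ^ (39 / 40 : ℝ))⁻¹, by positivity, ?_⟩
  intro z hz
  have hzI : z.re ∈ Icc (-(3 / 2 * L0)) (5 / 2 * L0) := by
    refine ⟨hz.1.le, ?_⟩
    have := hz.2
    linarith
  have hzJ := hI hzI
  have e1 : HasDerivAt g (deriv g z.re) z.re :=
    (d1.1.differentiableAt (hJ.mem_nhds hzJ)).hasDerivAt
  have e3 : HasDerivAt (deriv (deriv g)) (deriv (deriv (deriv g)) z.re) z.re :=
    (d3.1.differentiableAt (hJ.mem_nhds hzJ)).hasDerivAt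
  have hK : HasDerivAt (fun x => -(Real.exp (-2 * g x) * deriv (deriv g) x))
      (Real.exp (-2 * g z.re) * (2 * deriv g z.re * deriv (deriv g) z.re -
        deriv (deriv (deriv g)) z.re)) z.re := by
    have h1 := (((e1.const_mul (-2)).exp).mul e3).neg
    refine h1.congr_deriv ?_
    ring
  have hev : curv (phi g c1) =ᶠ[𝓝 z] fun w => -(Real.exp (-2 * g w.re) * deriv (deriv g) w.re) := by
    filter_upwards [(stp_open L0 (3 / 2 * L0)).mem_nhds hz] with w hw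
    exact h31 w hw
  rw [fderiv_re _ _ z _ hK hev, h31 z hz, hrot z hz]
  have hder : |deriv (deriv (deriv g)) z.re| ≤ C * (deriv (deriv g) z.re) ^ (39 / 40 : ℝ) := by
    apply hg.der
    rw [abs_le]
    refine ⟨?_, ?_⟩
    · linarith [hzI.1]
    · linarith [hzI.2]
  have k0 := (hB0 _ hzI).trans hb0
  have k1 := (hB1 _ hzI).trans hb1'
  have k2 := (hB2 _ hzI).trans hb2
  rw [Real.norm_eq_abs] at k0 k1 k2
  exact est _ _ _ _ B C hb1 k0 k1 (hg.cvx _ hzJ) ((le_abs_self _).trans k2) hder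

/-- CLSE: the surface belongs to the class -/
theorem clsE : StW → StAc → StDisc → StCol → Pool.Agent.Y262.EG.StInv → StPhi1 → StPhi3 →
    StClsE := by
  intro hW hA hD hC hInv h1 h3 g c1 C hg M P _ _ _ _ pr q hpr hut
  have hL : 0 < L0 := hW.1
  have hlam : 0 < lam := hW.2.1
  obtain ⟨p1, p2, p3, p4⟩ := h1 g c1 C hg
  obtain ⟨h31, h32⟩ := h3 g c1 C hg
  have hκ : 0 < lam ^ 2 * Real.exp (-2 * c1) := by positivity
  have hsub : Stp L0 (3 / 2 * L0) ⊆ Om := stp_sub hL _ le_rfl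
  have hmono : Stp L0 (1 / 2 * L0) ⊆ Stp L0 (3 / 2 * L0) := stp_mono (by linarith)
  have hprac : ∀ z ∈ Om, ∀ γ : Gq, pr (ac γ z) = pr z := by
    intro z hz γ
    exact ((hpr.rel z hz _ (hA.1 γ z hz).1).2 ⟨γ, rfl⟩).symm
  have hcurv : ∀ z ∈ Om, ∀ γ : Gq, curv (phi g c1) z = curv (phi g c1) (ac γ z) ∧
      Real.exp (-phi g c1 z) * ‖fderiv ℝ (curv (phi g c1)) z‖ =
        Real.exp (-phi g c1 (ac γ z)) * ‖fderiv ℝ (curv (phi g c1)) (ac γ z)‖ := by
    intro z hz γ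
    exact hInv M P Om (phi g c1) pr q hut z hz _ (hA.1 γ z hz).1 (hprac z hz γ).symm
  have hex : ∀ z ∈ Om, -(lam ^ 2 * Real.exp (-2 * c1)) < curv (phi g c1) z →
      ∃ γ : Gq, ac γ z ∈ Stp L0 (1 / 2 * L0) := by
    intro z hz hlt
    by_contra hno
    push Not at hno
    rw [h32 z hz hno] at hlt
    exact lt_irrefl _ hlt
  obtain ⟨C', hC'0, hC'⟩ := collar_der hL g c1 C hg h31 p2
  refine ⟨C', ?_⟩
  constructor
  · exact hL
  · linarith
  · linarith
  · exact hκ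
  · exact hsub
  · exact p2
  · exact hg.flat
  · -- per
    intro z hz
    obtain ⟨t, ht⟩ := hC.2
    have h5 := hprac z (hsub hz) t
    rw [ht z (hsub hz)] at h5
    exact h5
  · -- inj
    intro z hz w hw hzw
    obtain ⟨γ, hγ⟩ := (hpr.rel z (hsub hz) w (hsub hw)).1 hzw
    obtain ⟨n, hn⟩ := hC.1 z hz γ (by rw [hγ]; exact hw)
    refine ⟨n, ?_⟩
    rw [← hγ]
    exact hn z (hsub hz)
  · -- neg
    intro z hz
    by_cases hlt : -(lam ^ 2 * Real.exp (-2 * c1)) < curv (phi g c1) z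
    · obtain ⟨γ, hγ⟩ := hex z hz hlt
      rw [(hcurv z hz γ).1, h31 _ (hmono hγ)]
      have h6 := hg.cvx (ac γ z).re (hA.1 γ z hz).1
      have h7 : 0 ≤ Real.exp (-2 * g (ac γ z).re) * deriv (deriv g) (ac γ z).re :=
        mul_nonneg (Real.exp_pos _).le h6
      linarith
    · push Not at hlt
      linarith
  · -- low
    intro z hz hlt
    obtain ⟨γ, hγ⟩ := hex z hz hlt
    exact ⟨ac γ z, hγ, hprac z hz γ⟩
  · -- zero
    intro z hz h0
    obtain ⟨γ, hγ⟩ := hex z hz (by rw [h0]; linarith)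
    have h6 : deriv (deriv g) (ac γ z).re = 0 := by
      have h7 := (hcurv z hz γ).1
      rw [h0, h31 _ (hmono hγ)] at h7
      have h8 : Real.exp (-2 * g (ac γ z).re) * deriv (deriv g) (ac γ z).re = 0 := by linarith
      rcases mul_eq_zero.1 h8 with h9 | h9
      · exact absurd h9 (Real.exp_pos _).ne'
      · exact h9
    have h9 := hg.zero (ac γ z).re (hA.1 γ z hz).1 h6
    exact ⟨ac γ z, h9.1, h9.2, hprac z hz γ⟩
  · -- der
    intro z hz
    by_cases hex' : ∃ γ : Gq, ac γ z ∈ Stp L0 (3 / 2 * L0)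
    · obtain ⟨γ, hγ⟩ := hex'
      rw [(hcurv z hz γ).2, (hcurv z hz γ).1]
      exact hC' _ hγ
    · push Not at hex'
      have hev : curv (phi g c1) =ᶠ[𝓝 z] fun _ => -(lam ^ 2 * Real.exp (-2 * c1)) := by
        filter_upwards [near hW hA hD hC z hz hex', om_open.mem_nhds hz] with w hw hwO
        exact h32 w hwO hw
      have h6 : fderiv ℝ (curv (phi g c1)) z = 0 := by
        rw [hev.fderiv_eq]
        simp
      rw [h6, norm_zero, mul_zero]
      positivity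
  · exact hpr.conn

end Pool.Agent.Y868.EX
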