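import Pool.Agent.Y262.EX.Stm

/-!
# Job PHI1: local form of the metric
-/

set_option autoImplicit false

open Set Filter Topology MeasureTheory
open scoped ContDiff ComplexConjugate Real

noncomputable section

namespace Pool.Agent.Y868.EX

open Pool.Agent.Y262.EG Pool.Agent.Y262.EX

/-- the strips lie in the domain -/
lemma stp_sub (hL : 0 < L0) (δ : ℝ) (hδ : δ ≤ 3 / 2 * L0) : Stp L0 δ ⊆ Om := by
  rintro z ⟨h1, h2⟩
  refine ⟨?_, ?_⟩
  · linarith
  · linarith

/-- smaller strips -/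
lemma stp_mono {L δ δ' : ℝ} (h : δ ≤ δ') : Stp L δ ⊆ Stp L δ' := by
  rintro z ⟨h1, h2⟩
  refine ⟨?_, ?_⟩
  · linarith
  · linarith

/-- multiples of the period have real part zero -/
lemma re_shift (z : ℂ) (n : ℤ) : (z + n * (2 * π * Complex.I)).re = z.re := by
  simp

/-- imaginary part of a translate -/
lemma im_shift (z : ℂ) (n : ℤ) : (z + n * (2 * π * Complex.I)).im = z.im + n * (2 * π) := by
  simp

/-- translates of points of the domain -/
lemma shift_mem {z : ℂ} (hz : z ∈ Om) (n : ℤ) : z + n * (2 * π * Complex.I) ∈ Om := by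
  obtain ⟨h1, h2⟩ := hz
  refine ⟨?_, ?_⟩
  · rw [re_shift]; exact h1
  · rw [re_shift]; exact h2

/-- powers of the translation -/
lemma zpow_shift (hA : StAc) (t : Gq) (ht : ∀ w ∈ Om, ac t w = w + 2 * π * Complex.I) (n : ℤ) :
    ∀ w ∈ Om, ac (t ^ n) w = w + n * (2 * π * Complex.I) := by
  have hinv : ∀ w ∈ Om, ac t⁻¹ w = w - 2 * π * Complex.I := by
    intro w hw
    have hw' : w - 2 * π * Complex.I ∈ Om := by
      have := shift_mem hw (-1)
      have e : w + ((-1 : ℤ) : ℂ) * (2 * π * Complex.I) = w - 2 * π * Complex.I := by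
        push_cast; ring
      rwa [e] at this
    have h1 := ht _ hw'
    have h2 := (hA.1 t _ hw').2.2.1 t⁻¹
    rw [inv_mul_cancel, hA.2 _ hw', h1] at h2
    rw [sub_add_cancel] at h2
    exact h2.symm
  induction n using Int.induction_on with
  | zero =>
    intro w hw
    simp [hA.2 w hw]
  | succ n ih =>
    intro w hw
    rw [zpow_add_one, (hA.1 t w hw).2.2.1 (t ^ (n : ℤ)), ht w hw]
    have hw' : w + 2 * π * Complex.I ∈ Om := by
      have := shift_mem hw 1
      simpa using this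
    rw [ih _ hw']
    push_cast
    ring
  | pred n ih =>
    intro w hw
    rw [zpow_sub_one, (hA.1 t⁻¹ w hw).2.2.1 (t ^ (-(n : ℤ))), hinv w hw]
    have hw' : w - 2 * π * Complex.I ∈ Om := by
      have := shift_mem hw (-1)
      have e : w + ((-1 : ℤ) : ℂ) * (2 * π * Complex.I) = w - 2 * π * Complex.I := by
        push_cast; ring
      rwa [e] at this
    rw [ih _ hw']
    push_cast
    ring

/-- the domain is open -/
lemma om_open : IsOpen Om := by
  apply IsOpen.inter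
  · exact isOpen_lt continuous_const Complex.continuous_re
  · exact isOpen_lt Complex.continuous_re continuous_const

/-- two elements which map `z` to the collar give the same real part -/
lemma same_re (hL : 0 < L0) (hA : StAc) (hC : StCol) (z : ℂ) (hz : z ∈ Om) (γ γ0 : Gq)
    (h : ac γ z ∈ Stp L0 (3 / 2 * L0)) (h0 : ac γ0 z ∈ Stp L0 (3 / 2 * L0)) :
    (ac γ z).re = (ac γ0 z).re := by
  have h1 := (hA.1 γ0 z hz).2.2.1 (γ * γ0⁻¹)
  rw [inv_mul_cancel_right] at h1
  have h2 : ac (γ * γ0⁻¹) (ac γ0 z) ∈ Stp L0 (3 / 2 * L0) := by rw [← h1]; exact h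
  obtain ⟨n, hn⟩ := hC.1 _ h0 _ h2
  rw [h1, hn _ (hA.1 γ0 z hz).1, re_shift]

/-- no point near `z` is mapped to the small collar -/
lemma near (hW : StW) (hA : StAc) (hD : StDisc) (hC : StCol) (z : ℂ) (hz : z ∈ Om)
    (hno : ∀ γ : Gq, ac γ z ∉ Stp L0 (3 / 2 * L0)) :
    ∀ᶠ w in 𝓝 z, ∀ γ : Gq, ac γ w ∉ Stp L0 (1 / 2 * L0) := by
  have hL : 0 < L0 := hW.1
  obtain ⟨t, ht⟩ := hC.2
  set D0 : Set ℂ := Icc (-(1 / 2 * L0)) (L0 + 1 / 2 * L0) ×ℂ Icc 0 (2 * π) with hD0
  have hcD0 : IsCompact D0 := isCompact_Icc.reProdIm isCompact_Icc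
  have hD0s : D0 ⊆ Stp L0 (3 / 2 * L0) := by
    intro u hu
    rw [hD0, Complex.mem_reProdIm] at hu
    refine ⟨?_, ?_⟩
    · linarith [hu.1.1]
    · linarith [hu.1.2]
  obtain ⟨r, hr, hrs⟩ := Metric.nhds_basis_closedBall.mem_iff.1 (om_open.mem_nhds hz)
  have hK : IsCompact (D0 ∪ Metric.closedBall z r) := hcD0.union (isCompact_closedBall z r)
  have hKs : D0 ∪ Metric.closedBall z r ⊆ Om :=
    union_subset (hD0s.trans (stp_sub hL _ le_rfl)) hrs
  have hfin := hD _ hK hKs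
  have hall : ∀ᶠ w in 𝓝 z, ∀ γ ∈ {γ : Gq | (ac γ '' (D0 ∪ Metric.closedBall z r) ∩
      (D0 ∪ Metric.closedBall z r)).Nonempty}, ac γ w ∉ D0 := by
    rw [Filter.eventually_all_finite hfin]
    intro γ _
    have hcont : ContinuousAt (ac γ) z := (hA.1 γ z hz).2.2.2.1.continuousAt
    have hne : ac γ z ∈ D0ᶜ := fun h => hno γ (hD0s h)
    exact hcont.eventually (hcD0.isClosed.isOpen_compl.mem_nhds hne)
  filter_upwards [hall, Metric.closedBall_mem_nhds z hr] with w hw hwB γ hγ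
  have hwO : w ∈ Om := hrs hwB
  set n : ℤ := -⌊(ac γ w).im / (2 * π)⌋ with hn
  have hpi : 0 < 2 * π := by positivity
  have h1 : ac (t ^ n * γ) w = ac γ w + n * (2 * π * Complex.I) := by
    rw [(hA.1 γ w hwO).2.2.1 (t ^ n)]
    exact zpow_shift hA t ht n _ (hA.1 γ w hwO).1
  have h2 : ac (t ^ n * γ) w ∈ D0 := by
    rw [h1, hD0, Complex.mem_reProdIm, re_shift, im_shift]
    refine ⟨⟨hγ.1.le, hγ.2.le⟩, ?_, ?_⟩
    · have h3 := Int.floor_le ((ac γ w).im / (2 * π))
      rw [le_div_iff₀ hpi] at h3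
      rw [hn]
      push_cast
      linarith
    · have h3 := (Int.lt_floor_add_one ((ac γ w).im / (2 * π))).le
      rw [div_le_iff₀ hpi] at h3
      rw [hn]
      push_cast
      linarith
  refine hw (t ^ n * γ) ?_ h2
  exact ⟨ac (t ^ n * γ) w, ⟨w, Or.inr hwB, rfl⟩, Or.inl h2⟩

/-- PHI1: local form of the metric -/
theorem phi1 : StW → StAc → StDisc → StCol → StPhi1 := by
  intro hW hA hD hC g c1 C hg
  have hL : 0 < L0 := hW.1
  have P1 : ∀ (γ : Gq), ∀ z ∈ Om, ac γ z ∈ Stp L0 (3 / 2 * L0) →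
      phi g c1 z = F0 z.re + g (ac γ z).re - F0 (ac γ z).re := by
    intro γ z hz hγ
    have hex : ∃ γ : Gq, ac γ z ∈ Stp L0 (3 / 2 * L0) := ⟨γ, hγ⟩
    unfold phi
    rw [dif_pos hex]
    rw [same_re hL hA hC z hz γ hex.choose hγ hex.choose_spec]
  have P3 : ∀ z ∈ Om, (∀ γ : Gq, ac γ z ∉ Stp L0 (1 / 2 * L0)) →
      phi g c1 z = F0 z.re + c1 := by
    intro z hz hno
    by_cases hex : ∃ γ : Gq, ac γ z ∈ Stp L0 (3 / 2 * L0)
    · obtain ⟨γ, hγ⟩ := hex
      rw [P1 γ z hz hγ]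
      have hx : (ac γ z).re ∈ Ioo (-(7 / 2 * L0)) (9 / 2 * L0) := (hA.1 γ z hz).1
      have habs : L0 ≤ |(ac γ z).re - L0 / 2| := by
        have h1 := hno γ
        by_contra hlt
        push Not at hlt
        rw [abs_lt] at hlt
        apply h1
        refine ⟨?_, ?_⟩
        · linarith [hlt.1]
        · linarith [hlt.2]
      rw [hg.hyp _ hx habs]
      ring
    · unfold phi
      rw [dif_neg hex]
  refine ⟨P1, ?_, P3, ?_⟩
  · intro z hz
    have hz' : z ∈ Om := stp_sub hL _ le_rfl hz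
    have h1 : ac 1 z = z := hA.2 z hz'
    have h2 := P1 1 z hz' (by rw [h1]; exact hz)
    rw [h2, h1]
    ring
  · intro z hz hno
    filter_upwards [near hW hA hD hC z hz hno, om_open.mem_nhds hz] with w hw hwO
    exact P3 w hwO hw

end Pool.Agent.Y868.EX
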